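import Pool.Agent.Y935.WR.Stm

set_option autoImplicit false

namespace Pool.Agent.Y496.WR

open Finset MeasureTheory Filter
open Pool.Agent.Y935.WR

noncomputable section

/-- the difference of the two sides -/
def G {k : ℕ} (x y : Fin k → ℕ) (μ : Fin k → ℝ) : ℝ :=
  ∑ i, (((x i : ℝ) - μ i) ^ k - ((y i : ℝ) - μ i) ^ k)

lemma G_symm {k : ℕ} (x y : Fin k → ℕ) (μ : Fin k → ℝ) : G x y μ = - G y x μ := by
  unfold G
  rw [← Finset.sum_neg_distrib]
  exact Finset.sum_congr rfl fun i _ => by ring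

lemma G_cont {k : ℕ} (x y : Fin k → ℕ) : Continuous (G x y) := by
  unfold G
  fun_prop

/-- A: coincidence of the integer values bounds `G`. -/
lemma abs_G_lt {k : ℕ} (hk : 0 < k) {α : ℝ} (hα : 1 ≤ α) (μ : Fin k → ℝ) (x y : Fin k → ℕ)
    (h : Y935.WR.val α μ x = Y935.WR.val α μ y) : |G x y μ| < k := by
  have h1 : α * G x y μ = ∑ i, (Int.fract (α * ((x i : ℝ) - μ i) ^ k) -
      Int.fract (α * ((y i : ℝ) - μ i) ^ k)) := by
    have hx : ((Y935.WR.val α μ x : ℤ) : ℝ) = ((Y935.WR.val α μ y : ℤ) : ℝ) := by rw [h]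
    unfold Y935.WR.val at hx
    push_cast at hx
    have e1 : ∀ z : ℝ, Int.fract z = z - (⌊z⌋ : ℝ) := fun z => rfl
    simp only [e1]
    unfold G
    rw [Finset.mul_sum]
    have : ∑ i, (α * ((x i : ℝ) - μ i) ^ k - (⌊α * ((x i : ℝ) - μ i) ^ k⌋ : ℝ) -
      (α * ((y i : ℝ) - μ i) ^ k - (⌊α * ((y i : ℝ) - μ i) ^ k⌋ : ℝ))) =
      ∑ i, α * (((x i : ℝ) - μ i) ^ k - ((y i : ℝ) - μ i) ^ k) -
      (∑ i, (⌊α * ((x i : ℝ) - μ i) ^ k⌋ : ℝ) - ∑ i, (⌊α * ((y i : ℝ) - μ i) ^ k⌋ : ℝ)) := by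
      rw [← Finset.sum_sub_distrib, ← Finset.sum_sub_distrib]
      exact Finset.sum_congr rfl fun i _ => by ring
    rw [this, hx]
    ring
  have h2 : |α * G x y μ| < k := by
    rw [h1]
    calc |∑ i, (Int.fract (α * ((x i : ℝ) - μ i) ^ k) - Int.fract (α * ((y i : ℝ) - μ i) ^ k))|
        ≤ ∑ i, |Int.fract (α * ((x i : ℝ) - μ i) ^ k) - Int.fract (α * ((y i : ℝ) - μ i) ^ k)| :=
          Finset.abs_sum_le_sum_abs _ _
      _ < ∑ _i : Fin k, (1 : ℝ) := by
          apply Finset.sum_lt_sum_of_nonempty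
          · exact ⟨⟨0, hk⟩, Finset.mem_univ _⟩
          · intro i _
            rw [abs_lt]
            have a1 := Int.fract_nonneg (α * ((x i : ℝ) - μ i) ^ k)
            have a2 := Int.fract_lt_one (α * ((x i : ℝ) - μ i) ^ k)
            have a3 := Int.fract_nonneg (α * ((y i : ℝ) - μ i) ^ k)
            have a4 := Int.fract_lt_one (α * ((y i : ℝ) - μ i) ^ k)
            constructor <;> linarith
      _ = k := by simp
  rw [abs_mul, abs_of_pos (by linarith : 0 < α)] at h2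
  have h3 : |G x y μ| ≤ α * |G x y μ| := le_mul_of_one_le_left (abs_nonneg _) hα
  linarith

/-- C: slicing. -/
lemma vol_slice {n : ℕ} (i0 : Fin (n + 1)) (R : ℝ) (S : Set (Fin (n + 1) → ℝ))
    (hS : MeasurableSet S) (hSV : S ⊆ Set.univ.pi (fun _ => Set.Icc (-R) R)) (D : ENNReal)
    (hD : ∀ ν : Fin n → ℝ, volume {t : ℝ | (i0.insertNth t ν : Fin (n + 1) → ℝ) ∈ S} ≤ D) :
    volume S ≤ D * ENNReal.ofReal (2 * R) ^ n := by
  have hmp := volume_preserving_piFinSuccAbove (fun _ : Fin (n + 1) => ℝ) i0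
  have h1 := hmp.symm.measure_preimage_equiv S
  rw [← h1]
  have hm : MeasurableSet ((MeasurableEquiv.piFinSuccAbove (fun _ : Fin (n + 1) => ℝ) i0).symm ⁻¹' S) :=
    (MeasurableEquiv.measurable _) hS
  rw [Measure.volume_eq_prod, Measure.prod_apply_symm hm]
  have h2 : ∀ ν : Fin n → ℝ, volume ((fun t : ℝ => (t, ν)) ⁻¹'
      ((MeasurableEquiv.piFinSuccAbove (fun _ : Fin (n + 1) => ℝ) i0).symm ⁻¹' S)) ≤
      (Set.univ.pi (fun _ : Fin n => Set.Icc (-R) R)).indicator (fun _ => D) ν := by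
    intro ν
    have e : ((fun t : ℝ => (t, ν)) ⁻¹'
      ((MeasurableEquiv.piFinSuccAbove (fun _ : Fin (n + 1) => ℝ) i0).symm ⁻¹' S)) =
      {t : ℝ | (i0.insertNth t ν : Fin (n + 1) → ℝ) ∈ S} := rfl
    rw [e]
    by_cases hν : ν ∈ Set.univ.pi (fun _ : Fin n => Set.Icc (-R) R)
    · rw [Set.indicator_of_mem hν]
      exact hD ν
    · rw [Set.indicator_of_notMem hν]
      have : {t : ℝ | (i0.insertNth t ν : Fin (n + 1) → ℝ) ∈ S} = ∅ := by
        ext t
        simp only [Set.mem_ofPred_eq, Set.mem_empty_iff_false, iff_false]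
        intro ht
        apply hν
        have h3 := hSV ht
        intro j _
        have h4 := h3 (i0.succAbove j) (Set.mem_univ _)
        simpa using h4
      rw [this]
      simp
  calc ∫⁻ ν, volume ((fun t : ℝ => (t, ν)) ⁻¹'
      ((MeasurableEquiv.piFinSuccAbove (fun _ : Fin (n + 1) => ℝ) i0).symm ⁻¹' S))
      ≤ ∫⁻ ν, (Set.univ.pi (fun _ : Fin n => Set.Icc (-R) R)).indicator (fun _ => D) ν :=
        lintegral_mono h2
    _ = D * volume (Set.univ.pi (fun _ : Fin n => Set.Icc (-R) R)) := by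
        rw [lintegral_indicator (MeasurableSet.univ_pi fun _ => measurableSet_Icc)]
        simp
    _ = D * ENNReal.ofReal (2 * R) ^ n := by
        congr 1
        rw [volume_pi_pi]
        simp only [Real.volume_Icc, Finset.prod_const, Finset.card_univ, Fintype.card_fin]
        congr 2
        ring

/-- `M ^ k - m ^ k ≥ (M - m) M ^ (k - 1)`. -/
lemma pow_sub_ge {M m : ℝ} (hm : 0 ≤ m) (h : m ≤ M) (j : ℕ) :
    (M - m) * M ^ j ≤ M ^ (j + 1) - m ^ (j + 1) := by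
  have h1 : m ^ j ≤ M ^ j := pow_le_pow_left₀ hm h j
  have h2 : m * m ^ j ≤ m * M ^ j := mul_le_mul_of_nonneg_left h1 hm
  rw [pow_succ' M, pow_succ' m]
  linarith

/-- the decrease of `(u - t) ^ k - (v - t) ^ k`. -/
lemma phi_dec {n : ℕ} {u v q T : ℝ} (huv : v ≤ u) (hq : 0 ≤ q) (hv : q ≤ v - T) {s t : ℝ}
    (hst : s ≤ t) (ht : t ≤ T) :
    (((n + 2 : ℕ) : ℝ)) * (u - v) * q ^ n * (t - s) ≤
      ((u - s) ^ (n + 2) - (v - s) ^ (n + 2)) - ((u - t) ^ (n + 2) - (v - t) ^ (n + 2)) := by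
  have hd : ∀ w : ℝ, HasDerivAt (fun z : ℝ => (u - z) ^ (n + 2) - (v - z) ^ (n + 2))
      (-(((n + 2 : ℕ) : ℝ)) * ((u - w) ^ (n + 1) - (v - w) ^ (n + 1))) w := by
    intro w
    have h1 : HasDerivAt (fun z : ℝ => u - z) (-1) w := by
      simpa using (hasDerivAt_id w).const_sub u
    have h2 : HasDerivAt (fun z : ℝ => v - z) (-1) w := by
      simpa using (hasDerivAt_id w).const_sub v
    have h3 := (h1.pow (n + 2)).sub (h2.pow (n + 2))
    refine h3.congr_deriv ?_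
    simp only [Nat.add_succ_sub_one]
    ring
  have key := (convex_Iic T).image_sub_le_mul_sub_of_deriv_le
    (f := fun z : ℝ => (u - z) ^ (n + 2) - (v - z) ^ (n + 2))
    (C := -((((n + 2 : ℕ) : ℝ)) * (u - v) * q ^ n))
    (fun w _ => (hd w).continuousAt.continuousWithinAt)
    (fun w _ => (hd w).differentiableAt.differentiableWithinAt)
    (by
      intro w hw
      rw [(hd w).deriv]
      rw [interior_Iic] at hw
      have hw' : w < T := hw
      have a1 : q ≤ v - w := by linarith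
      have a2 := pow_sub_ge (M := u - w) (m := v - w) (by linarith) (by linarith) n
      have a3 : q ^ n ≤ (u - w) ^ n := pow_le_pow_left₀ hq (by linarith) n
      have a4 : (u - v) * q ^ n ≤ (u - v) * (u - w) ^ n :=
        mul_le_mul_of_nonneg_left a3 (by linarith)
      have a5 : (u - v) * q ^ n ≤ (u - w) ^ (n + 1) - (v - w) ^ (n + 1) := by
        have : u - w - (v - w) = u - v := by ring
        rw [this] at a2
        linarith
      have a6 : (0 : ℝ) ≤ ((n + 2 : ℕ) : ℝ) := Nat.cast_nonneg _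
      have a7 := mul_le_mul_of_nonneg_left a5 a6
      linarith)
    s (by simpa using hst.trans ht) t (by simpa using ht) hst
  linarith

/-- the one dimensional slices -/
lemma slice_diam {n : ℕ} {R P : ℝ} (hRP : 2 * R ≤ P) (hP : 0 < P) {u v : ℝ}
    (huv : v < u) (hv : P ≤ v) (r : ℝ) :
    volume {t : ℝ | t ∈ Set.Icc (-R) R ∧
      |((u - t) ^ (n + 2) - (v - t) ^ (n + 2)) + r| < ((n + 2 : ℕ) : ℝ)} ≤
      ENNReal.ofReal (2 / ((u - v) * (P / 2) ^ n)) := by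
  refine (Real.volume_le_diam _).trans (Metric.ediam_le ?_)
  have hpos : 0 < (u - v) * (P / 2) ^ n := by
    have : 0 < (P / 2) ^ n := by positivity
    exact mul_pos (by linarith) this
  have main : ∀ s t : ℝ, s ≤ t → t ∈ Set.Icc (-R) R →
      |((u - s) ^ (n + 2) - (v - s) ^ (n + 2)) + r| < ((n + 2 : ℕ) : ℝ) →
      |((u - t) ^ (n + 2) - (v - t) ^ (n + 2)) + r| < ((n + 2 : ℕ) : ℝ) →
      t - s ≤ 2 / ((u - v) * (P / 2) ^ n) := by
    intro s t hst ht h1 h2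
    have h3 := phi_dec (n := n) (u := u) (v := v) (q := P / 2) (T := R) huv.le (by linarith)
      (by linarith) hst ht.2
    rw [abs_lt] at h1 h2
    rw [le_div_iff₀ hpos]
    have hk : (0 : ℝ) < ((n + 2 : ℕ) : ℝ) := by positivity
    have h4 : ((n + 2 : ℕ) : ℝ) * ((t - s) * ((u - v) * (P / 2) ^ n)) ≤
        ((n + 2 : ℕ) : ℝ) * 2 := by
      have : ((n + 2 : ℕ) : ℝ) * ((t - s) * ((u - v) * (P / 2) ^ n)) =
        ((n + 2 : ℕ) : ℝ) * (u - v) * (P / 2) ^ n * (t - s) := by ring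
      rw [this]
      linarith [h1.1, h1.2, h2.1, h2.2]
    exact le_of_mul_le_mul_left h4 hk
  intro s hs t ht
  rw [edist_dist, Real.dist_eq]
  apply ENNReal.ofReal_le_ofReal
  rcases le_total s t with h | h
  · rw [abs_sub_comm, abs_of_nonneg (by linarith)]
    exact main s t h ht.1 hs.2 ht.2
  · rw [abs_of_nonneg (by linarith)]
    exact main t s h hs.1 ht.2 hs.2

/-- the volume attached to a pair of tuples which differ at `i0` -/
lemma vol_pair_aux {n : ℕ} (R P : ℕ) (hRP : 2 * R + 2 ≤ P) (x y : Fin (n + 2) → ℕ)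
    (hy : y ∈ box (n + 2) P) (i0 : Fin (n + 2)) (hlt : y i0 < x i0) :
    volume (Set.univ.pi (fun _ : Fin (n + 2) => Set.Icc (-(R : ℝ)) R) ∩
      {μ | |G x y μ| < ((n + 2 : ℕ) : ℝ)}) ≤
      ENNReal.ofReal (2 / (((x i0 : ℝ) - y i0) * ((P : ℝ) / 2) ^ n)) *
        ENNReal.ofReal (2 * (R : ℝ)) ^ (n + 1) := by
  have hP : (0 : ℝ) < P := by
    have : 0 < P := by omega
    exact_mod_cast this
  have hm : MeasurableSet (Set.univ.pi (fun _ : Fin (n + 2) => Set.Icc (-(R : ℝ)) R) ∩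
      {μ | |G x y μ| < ((n + 2 : ℕ) : ℝ)}) := by
    refine (MeasurableSet.univ_pi fun _ => measurableSet_Icc).inter ?_
    exact (isOpen_lt (G_cont x y).abs continuous_const).measurableSet
  refine vol_slice i0 (R : ℝ) _ hm Set.inter_subset_left _ ?_
  intro ν
  have hyP : P < y i0 := by
    have := (Fintype.mem_piFinset.mp hy) i0
    exact (Finset.mem_Ioc.mp this).1
  have h1 := slice_diam (n := n) (R := R) (P := P) (u := (x i0 : ℝ)) (v := (y i0 : ℝ))
    (by exact_mod_cast (by omega : 2 * R ≤ P)) hP (by exact_mod_cast hlt)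
    (by exact_mod_cast hyP.le)
    (∑ j, (((x (i0.succAbove j) : ℝ) - ν j) ^ (n + 2) - ((y (i0.succAbove j) : ℝ) - ν j) ^ (n + 2)))
  refine le_trans (measure_mono ?_) h1
  intro t ht
  have ht1 : (i0.insertNth t ν : Fin (n + 2) → ℝ) ∈ Set.univ.pi
    (fun _ : Fin (n + 2) => Set.Icc (-(R : ℝ)) R) := ht.1
  have ht2 : |G x y (i0.insertNth t ν : Fin (n + 2) → ℝ)| < ((n + 2 : ℕ) : ℝ) := ht.2
  refine ⟨?_, ?_⟩
  · have := ht1 i0 (Set.mem_univ _)
    simpa using this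
  · unfold G at ht2
    rw [Fin.sum_univ_succAbove _ i0] at ht2
    simpa using ht2

lemma vol_pair {n : ℕ} (R P : ℕ) (hRP : 2 * R + 2 ≤ P) (x y : Fin (n + 2) → ℕ)
    (hx : x ∈ box (n + 2) P) (hy : y ∈ box (n + 2) P) (hne : x ≠ y) :
    volume (Set.univ.pi (fun _ : Fin (n + 2) => Set.Icc (-(R : ℝ)) R) ∩
      {μ | |G x y μ| < ((n + 2 : ℕ) : ℝ)}) ≤
      ENNReal.ofReal (2 ^ (n + 1) * (2 * R) ^ (n + 1) / (P : ℝ) ^ n *
        (1 / max 1 |(x 1 : ℝ) - y 1|)) := by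
  have hP : (0 : ℝ) < P := by
    have : 0 < P := by omega
    exact_mod_cast this
  -- choose the index
  obtain ⟨i0, hi0, hi1⟩ : ∃ i0, x i0 ≠ y i0 ∧ |(x 1 : ℝ) - y 1| ≤ |(x i0 : ℝ) - y i0| := by
    by_cases h1 : x 1 = y 1
    · obtain ⟨i, hi⟩ := Function.ne_iff.mp hne
      refine ⟨i, hi, ?_⟩
      rw [h1]
      simp
    · exact ⟨1, h1, le_rfl⟩
  have hone : (1 : ℝ) ≤ |(x i0 : ℝ) - y i0| := by
    rcases lt_or_gt_of_ne hi0 with h | h
    · have : (x i0 : ℝ) + 1 ≤ y i0 := by exact_mod_cast h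
      rw [abs_sub_comm, abs_of_nonneg (by linarith)]
      linarith
    · have : (y i0 : ℝ) + 1 ≤ x i0 := by exact_mod_cast h
      rw [abs_of_nonneg (by linarith)]
      linarith
  have hmax : max 1 |(x 1 : ℝ) - y 1| ≤ |(x i0 : ℝ) - y i0| := max_le hone hi1
  have hfin : ENNReal.ofReal (2 / (|(x i0 : ℝ) - y i0| * ((P : ℝ) / 2) ^ n)) *
        ENNReal.ofReal (2 * (R : ℝ)) ^ (n + 1) ≤
      ENNReal.ofReal (2 ^ (n + 1) * (2 * R) ^ (n + 1) / (P : ℝ) ^ n *
        (1 / max 1 |(x 1 : ℝ) - y 1|)) := by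
    rw [← ENNReal.ofReal_pow (by positivity), ← ENNReal.ofReal_mul (by positivity)]
    apply ENNReal.ofReal_le_ofReal
    have hm1 : (0 : ℝ) < max 1 |(x 1 : ℝ) - y 1| := lt_of_lt_of_le one_pos (le_max_left _ _)
    have e1 : 2 / (|(x i0 : ℝ) - y i0| * ((P : ℝ) / 2) ^ n) * (2 * (R : ℝ)) ^ (n + 1) =
      2 ^ (n + 1) * (2 * R) ^ (n + 1) / (P : ℝ) ^ n * (1 / |(x i0 : ℝ) - y i0|) := by
      have : |(x i0 : ℝ) - y i0| ≠ 0 := by
        have := hone
        intro h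
        rw [h] at this
        linarith
      rw [div_pow]
      field_simp
      ring
    rw [e1]
    apply mul_le_mul_of_nonneg_left _ (by positivity)
    exact one_div_le_one_div_of_le hm1 hmax
  rcases lt_or_gt_of_ne hi0 with h | h
  · have e : {μ : Fin (n + 2) → ℝ | |G x y μ| < ((n + 2 : ℕ) : ℝ)} =
      {μ | |G y x μ| < ((n + 2 : ℕ) : ℝ)} := by
      ext μ
      simp only [Set.mem_ofPred_eq]
      rw [G_symm x y μ, abs_neg]
    rw [e]
    refine (vol_pair_aux R P hRP y x hx i0 h).trans ?_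
    have e2 : ((y i0 : ℝ) - x i0) = |(x i0 : ℝ) - y i0| := by
      rw [abs_sub_comm, abs_of_nonneg]
      have : (x i0 : ℝ) < y i0 := by exact_mod_cast h
      linarith
    rw [e2]
    exact hfin
  · refine (vol_pair_aux R P hRP x y hy i0 h).trans ?_
    have e2 : ((x i0 : ℝ) - y i0) = |(x i0 : ℝ) - y i0| := by
      rw [abs_of_nonneg]
      have : (y i0 : ℝ) < x i0 := by exact_mod_cast h
      linarith
    rw [← e2] at hfin
    exact hfin

/-- D: when the intersection is nonempty the power sums are close. -/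
lemma near {n : ℕ} (R P : ℕ) (hRP : 2 * R + 2 ≤ P) (x y : Fin (n + 2) → ℕ)
    (hx : x ∈ box (n + 2) P) (hy : y ∈ box (n + 2) P) (μ : Fin (n + 2) → ℝ)
    (hμ : μ ∈ Set.univ.pi (fun _ : Fin (n + 2) => Set.Icc (-(R : ℝ)) R))
    (hG : |G x y μ| < ((n + 2 : ℕ) : ℝ)) :
    |∑ i, ((x i : ℝ) ^ (n + 2) - (y i : ℝ) ^ (n + 2))| ≤
      (((n + 2 : ℕ) : ℝ) + 2 * ((n + 2 : ℕ) : ℝ) ^ 2 * R * 3 ^ (n + 1)) * (P : ℝ) ^ (n + 1) := by
  have hP : (1 : ℝ) ≤ P := by
    have : 1 ≤ P := by omega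
    exact_mod_cast this
  have hRP' : (R : ℝ) ≤ P := by
    have : R ≤ P := by omega
    exact_mod_cast this
  have one : ∀ z : Fin (n + 2) → ℕ, z ∈ box (n + 2) P → ∀ i,
      |((z i : ℝ) - μ i) ^ (n + 2) - (z i : ℝ) ^ (n + 2)| ≤
        R * ((n + 2 : ℕ) : ℝ) * (3 * P) ^ (n + 1) := by
    intro z hz i
    have h1 := abs_pow_sub_pow_le ((z i : ℝ) - μ i) (z i : ℝ) (n + 2)
    have hzi := Finset.mem_Ioc.mp ((Fintype.mem_piFinset.mp hz) i)
    have hz1 : (P : ℝ) < z i := by exact_mod_cast hzi.1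
    have hz2 : (z i : ℝ) ≤ 2 * P := by exact_mod_cast hzi.2
    have hm := hμ i (Set.mem_univ _)
    have ha : |((z i : ℝ) - μ i) - z i| ≤ R := by
      rw [abs_le]
      constructor <;> [linarith [hm.2]; linarith [hm.1]]
    have hb : max |(z i : ℝ) - μ i| |(z i : ℝ)| ≤ 3 * P := by
      apply max_le
      · rw [abs_le]
        constructor <;> linarith [hm.1, hm.2]
      · rw [abs_of_nonneg (by linarith)]
        linarith
    have hb0 : 0 ≤ max |(z i : ℝ) - μ i| |(z i : ℝ)| := le_trans (abs_nonneg _) (le_max_left _ _)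
    have hc : max |(z i : ℝ) - μ i| |(z i : ℝ)| ^ (n + 2 - 1) ≤ (3 * P : ℝ) ^ (n + 1) := by
      have : n + 2 - 1 = n + 1 := by omega
      rw [this]
      exact pow_le_pow_left₀ hb0 hb _
    refine h1.trans ?_
    apply mul_le_mul _ hc (by positivity) (by positivity)
    exact mul_le_mul_of_nonneg_right ha (by positivity)
  have e1 : ∑ i, ((x i : ℝ) ^ (n + 2) - (y i : ℝ) ^ (n + 2)) = G x y μ -
      ∑ i, ((((x i : ℝ) - μ i) ^ (n + 2) - (x i : ℝ) ^ (n + 2)) -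
        (((y i : ℝ) - μ i) ^ (n + 2) - (y i : ℝ) ^ (n + 2))) := by
    unfold G
    rw [← Finset.sum_sub_distrib]
    exact Finset.sum_congr rfl fun i _ => by ring
  have h2 : |∑ i, ((((x i : ℝ) - μ i) ^ (n + 2) - (x i : ℝ) ^ (n + 2)) -
        (((y i : ℝ) - μ i) ^ (n + 2) - (y i : ℝ) ^ (n + 2)))| ≤
        ∑ _i : Fin (n + 2), 2 * (R * ((n + 2 : ℕ) : ℝ) * (3 * P) ^ (n + 1)) := by
    refine (Finset.abs_sum_le_sum_abs _ _).trans (Finset.sum_le_sum fun i _ => ?_)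
    refine (abs_sub _ _).trans ?_
    linarith [one x hx i, one y hy i]
  rw [Finset.sum_const, Finset.card_univ, Fintype.card_fin, nsmul_eq_mul] at h2
  rw [e1]
  refine (abs_sub _ _).trans ?_
  have h3 : (1 : ℝ) ≤ (P : ℝ) ^ (n + 1) := one_le_pow₀ hP
  have h4 : ((n + 2 : ℕ) : ℝ) ≤ ((n + 2 : ℕ) : ℝ) * (P : ℝ) ^ (n + 1) :=
    le_mul_of_one_le_right (Nat.cast_nonneg _) h3
  have h5 : ((n + 2 : ℕ) : ℝ) * (2 * (R * ((n + 2 : ℕ) : ℝ) * (3 * P : ℝ) ^ (n + 1))) =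
    2 * ((n + 2 : ℕ) : ℝ) ^ 2 * R * 3 ^ (n + 1) * (P : ℝ) ^ (n + 1) := by
    rw [mul_pow]
    ring
  rw [h5] at h2
  linarith [hG.le]

/-- summation over tuples by the first coordinate -/
lemma sum_cons {m : ℕ} (s : Finset ℕ) (f : (Fin (m + 1) → ℕ) → ℝ) :
    ∑ x ∈ Fintype.piFinset (fun _ : Fin (m + 1) => s), f x =
      ∑ z ∈ Fintype.piFinset (fun _ : Fin m => s), ∑ a ∈ s, f (Fin.cons a z) := by
  rw [← Finset.sum_product' (Fintype.piFinset (fun _ : Fin m => s)) s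
    (fun z a => f (Fin.cons a z))]
  refine Finset.sum_bij' (fun x _ => (Fin.tail x, x 0)) (fun p _ => Fin.cons p.2 p.1) ?_ ?_ ?_ ?_ ?_
  · intro x hx
    rw [Fintype.mem_piFinset] at hx
    rw [Finset.mem_product, Fintype.mem_piFinset]
    exact ⟨fun i => hx _, hx 0⟩
  · intro p hp
    rw [Finset.mem_product, Fintype.mem_piFinset] at hp
    rw [Fintype.mem_piFinset]
    intro i
    refine Fin.cases ?_ (fun j => ?_) i
    · simpa using hp.2
    · simpa using hp.1 j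
  · intro x _
    simp
  · intro p _
    simp
  · intro x _
    simp

/-- the sum of `1 / max 1 j`. -/
lemma sum_inv (P : ℕ) (hP : 1 ≤ P) :
    ∑ j ∈ Finset.range P, 1 / max 1 (j : ℝ) ≤ 2 * (1 + Real.log P) := by
  obtain ⟨m, rfl⟩ : ∃ m, P = m + 1 := ⟨P - 1, by omega⟩
  rw [Finset.sum_range_succ']
  have h1 : ∑ j ∈ Finset.range m, 1 / max 1 (((j + 1 : ℕ)) : ℝ) = (harmonic m : ℝ) := by
    unfold harmonic
    push_cast
    refine Finset.sum_congr rfl fun j _ => ?_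
    rw [max_eq_right (by
      have : (0 : ℝ) ≤ j := Nat.cast_nonneg _
      linarith)]
    rw [one_div]
  rw [h1]
  have h2 := harmonic_le_one_add_log m
  have h3 : Real.log m ≤ Real.log ((m + 1 : ℕ) : ℝ) := by
    rcases Nat.eq_zero_or_pos m with h | h
    · subst h
      simp
    · apply Real.log_le_log (by exact_mod_cast h)
      push_cast
      linarith
  have h4 : 0 ≤ Real.log ((m + 1 : ℕ) : ℝ) := Real.log_natCast_nonneg _
  have h5 : (1 : ℝ) / max 1 ((0 : ℕ) : ℝ) = 1 := by simp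
  rw [h5]
  linarith

/-- the sum of the weights over an interval -/
lemma sum_w (P s : ℕ) (hs : s ∈ Finset.Ioc P (2 * P)) :
    ∑ t ∈ Finset.Ioc P (2 * P), 1 / max 1 |(t : ℝ) - s| ≤ 4 * (1 + Real.log P) := by
  rw [Finset.mem_Ioc] at hs
  have hP : 1 ≤ P := by omega
  rw [← Finset.sum_filter_add_sum_filter_not (Finset.Ioc P (2 * P)) (fun t => s ≤ t)]
  have h1 : ∑ t ∈ (Finset.Ioc P (2 * P)).filter (fun t => s ≤ t), 1 / max 1 |(t : ℝ) - s| ≤
      ∑ j ∈ Finset.range P, 1 / max 1 (j : ℝ) := by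
    have e : ∑ t ∈ (Finset.Ioc P (2 * P)).filter (fun t => s ≤ t), 1 / max 1 |(t : ℝ) - s| =
        ∑ j ∈ ((Finset.Ioc P (2 * P)).filter (fun t => s ≤ t)).image (fun t => t - s),
          1 / max 1 (j : ℝ) := by
      rw [Finset.sum_image]
      · refine Finset.sum_congr rfl fun t ht => ?_
        rw [Finset.mem_filter] at ht
        rw [Nat.cast_sub ht.2, abs_of_nonneg]
        have : (s : ℝ) ≤ t := by exact_mod_cast ht.2
        linarith
      · intro a ha b hb hab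
        simp only [Finset.coe_filter, Set.mem_ofPred_eq] at ha hb
        simp only at hab
        omega
    rw [e]
    apply Finset.sum_le_sum_of_subset_of_nonneg
    · intro j hj
      rw [Finset.mem_image] at hj
      obtain ⟨t, ht, rfl⟩ := hj
      rw [Finset.mem_filter, Finset.mem_Ioc] at ht
      rw [Finset.mem_range]
      omega
    · intro j _ _
      positivity
  have h2 : ∑ t ∈ (Finset.Ioc P (2 * P)).filter (fun t => ¬ s ≤ t), 1 / max 1 |(t : ℝ) - s| ≤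
      ∑ j ∈ Finset.range P, 1 / max 1 (j : ℝ) := by
    have e : ∑ t ∈ (Finset.Ioc P (2 * P)).filter (fun t => ¬ s ≤ t), 1 / max 1 |(t : ℝ) - s| =
        ∑ j ∈ ((Finset.Ioc P (2 * P)).filter (fun t => ¬ s ≤ t)).image (fun t => s - t),
          1 / max 1 (j : ℝ) := by
      rw [Finset.sum_image]
      · refine Finset.sum_congr rfl fun t ht => ?_
        rw [Finset.mem_filter, not_le] at ht
        rw [Nat.cast_sub ht.2.le, abs_sub_comm, abs_of_nonneg]
        have : (t : ℝ) < s := by exact_mod_cast ht.2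
        linarith
      · intro a ha b hb hab
        simp only [Finset.coe_filter, Set.mem_ofPred_eq] at ha hb
        simp only at hab
        omega
    rw [e]
    apply Finset.sum_le_sum_of_subset_of_nonneg
    · intro j hj
      rw [Finset.mem_image] at hj
      obtain ⟨t, ht, rfl⟩ := hj
      rw [Finset.mem_filter, Finset.mem_Ioc] at ht
      rw [Finset.mem_range]
      omega
    · intro j _ _
      positivity
  linarith [sum_inv P hP]

/-- the number of first coordinates -/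
lemma count_first {n : ℕ} (P : ℕ) (hP : 1 ≤ P) (C c : ℝ) (hC : 0 ≤ C) :
    (((Finset.Ioc P (2 * P)).filter fun a : ℕ =>
      |(a : ℝ) ^ (n + 2) + c| ≤ C * (P : ℝ) ^ (n + 1)).card : ℝ) ≤ 2 * C + 1 := by
  set F := (Finset.Ioc P (2 * P)).filter fun a : ℕ =>
      |(a : ℝ) ^ (n + 2) + c| ≤ C * (P : ℝ) ^ (n + 1) with hF
  rcases F.eq_empty_or_nonempty with h | h
  · rw [h]
    simp
    linarith
  · have hsub : F ⊆ Finset.Icc (F.min' h) (F.max' h) := by
      intro a ha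
      rw [Finset.mem_Icc]
      exact ⟨F.min'_le a ha, F.le_max' a ha⟩
    have h1 := Finset.card_le_card hsub
    rw [Nat.card_Icc] at h1
    have hm := F.min'_mem h
    have hM := F.max'_mem h
    have hmM : F.min' h ≤ F.max' h := F.min'_le _ hM
    set m := F.min' h
    set M := F.max' h
    rw [hF, Finset.mem_filter, Finset.mem_Ioc] at hm hM
    have h2 : (F.card : ℝ) ≤ (M : ℝ) - m + 1 := by
      have : F.card + m ≤ M + 1 := by omega
      have : ((F.card + m : ℕ) : ℝ) ≤ ((M + 1 : ℕ) : ℝ) := by exact_mod_cast this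
      push_cast at this
      linarith
    have hmM' : (m : ℝ) ≤ M := by exact_mod_cast hmM
    have hPM : (P : ℝ) ≤ M := by exact_mod_cast hM.1.1.le
    have h3 := pow_sub_ge (M := (M : ℝ)) (m := (m : ℝ)) (Nat.cast_nonneg _) hmM' (n + 1)
    have h4 : ((M : ℝ) - m) * (P : ℝ) ^ (n + 1) ≤ ((M : ℝ) - m) * (M : ℝ) ^ (n + 1) := by
      apply mul_le_mul_of_nonneg_left _ (by linarith)
      exact pow_le_pow_left₀ (Nat.cast_nonneg _) hPM _
    have h5 := abs_le.mp hm.2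
    have h6 := abs_le.mp hM.2
    have hPpos : (0 : ℝ) < (P : ℝ) ^ (n + 1) := by
      have : (0 : ℝ) < P := by exact_mod_cast hP
      positivity
    have h7 : ((M : ℝ) - m) * (P : ℝ) ^ (n + 1) ≤ (2 * C) * (P : ℝ) ^ (n + 1) := by
      have : n + 1 + 1 = n + 2 := by omega
      rw [this] at h3
      linarith [h5.1, h6.2]
    have h8 := le_of_mul_le_mul_right h7 hPpos
    linarith

/-- the sum over `x` for fixed `y`. -/
lemma sum_x {n : ℕ} (P : ℕ) (hP : 1 ≤ P) (C : ℝ) (hC : 0 ≤ C) (y : Fin (n + 2) → ℕ)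
    (hy : y ∈ box (n + 2) P) :
    ∑ x ∈ box (n + 2) P, (if |∑ i, ((x i : ℝ) ^ (n + 2) - (y i : ℝ) ^ (n + 2))| ≤
      C * (P : ℝ) ^ (n + 1) then 1 / max 1 |(x 1 : ℝ) - y 1| else 0) ≤
      (2 * C + 1) * ((P : ℝ) ^ n * (4 * (1 + Real.log P))) := by
  unfold Y935.WR.box
  rw [sum_cons]
  have h1 : ∀ z : Fin (n + 1) → ℕ,
      ∑ a ∈ Finset.Ioc P (2 * P), (if |∑ i, (((Fin.cons a z : Fin (n + 2) → ℕ) i : ℝ) ^ (n + 2) -
        (y i : ℝ) ^ (n + 2))| ≤ C * (P : ℝ) ^ (n + 1) then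
        1 / max 1 |((Fin.cons a z : Fin (n + 2) → ℕ) 1 : ℝ) - y 1| else 0) ≤
      (2 * C + 1) * (1 / max 1 |(z 0 : ℝ) - y 1|) := by
    intro z
    have e : ∀ a : ℕ, ∑ i, (((Fin.cons a z : Fin (n + 2) → ℕ) i : ℝ) ^ (n + 2) -
        (y i : ℝ) ^ (n + 2)) = (a : ℝ) ^ (n + 2) + (-(y 0 : ℝ) ^ (n + 2) +
          ∑ i : Fin (n + 1), ((z i : ℝ) ^ (n + 2) - (y i.succ : ℝ) ^ (n + 2))) := by
      intro a
      rw [Fin.sum_univ_succ]
      simp only [Fin.cons_zero, Fin.cons_succ]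
      ring
    have e2 : ∀ a : ℕ, (Fin.cons a z : Fin (n + 2) → ℕ) 1 = z 0 := fun a => by
      have : (1 : Fin (n + 2)) = Fin.succ 0 := rfl
      rw [this, Fin.cons_succ]
    simp only [e, e2]
    rw [← Finset.sum_filter, Finset.sum_const, nsmul_eq_mul]
    apply mul_le_mul_of_nonneg_right _ (by positivity)
    exact count_first P hP C _ hC
  refine (Finset.sum_le_sum fun z _ => h1 z).trans ?_
  rw [← Finset.mul_sum]
  apply mul_le_mul_of_nonneg_left _ (by linarith)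
  rw [sum_cons]
  have h2 : ∀ z : Fin n → ℕ, ∑ a ∈ Finset.Ioc P (2 * P),
      1 / max 1 |((Fin.cons a z : Fin (n + 1) → ℕ) 0 : ℝ) - y 1| ≤ 4 * (1 + Real.log P) := by
    intro z
    simp only [Fin.cons_zero]
    exact sum_w P (y 1) ((Fintype.mem_piFinset.mp hy) 1)
  refine (Finset.sum_le_sum fun z _ => h2 z).trans ?_
  rw [Finset.sum_const, nsmul_eq_mul, Fintype.card_piFinset]
  have : 2 * P - P = P := by omega
  simp [this]

/-- the volume for a pair of tuples -/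
def V2 {n : ℕ} (R : ℕ) (x y : Fin (n + 2) → ℕ) : Set (Fin (n + 2) → ℝ) :=
  Set.univ.pi (fun _ : Fin (n + 2) => Set.Icc (-(R : ℝ)) R) ∩
      {μ | |G x y μ| < ((n + 2 : ℕ) : ℝ)}

/-- the bound for a pair -/
def bd {n : ℕ} (R P : ℕ) (C : ℝ) (x y : Fin (n + 2) → ℕ) : ℝ :=
  (if x = y then (2 * (R : ℝ)) ^ (n + 2) else 0) +
    2 ^ (n + 1) * (2 * (R : ℝ)) ^ (n + 1) / (P : ℝ) ^ n *
      (if |∑ i, ((x i : ℝ) ^ (n + 2) - (y i : ℝ) ^ (n + 2))| ≤
        C * (P : ℝ) ^ (n + 1) then 1 / max 1 |(x 1 : ℝ) - y 1| else 0)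

lemma bd_nonneg {n : ℕ} (R P : ℕ) (C : ℝ) (x y : Fin (n + 2) → ℕ) : 0 ≤ bd R P C x y := by
  unfold bd
  have h1 : 0 ≤ (if x = y then (2 * (R : ℝ)) ^ (n + 2) else 0) := by
    split_ifs <;> positivity
  have h2 : 0 ≤ (if |∑ i, ((x i : ℝ) ^ (n + 2) - (y i : ℝ) ^ (n + 2))| ≤
        C * (P : ℝ) ^ (n + 1) then 1 / max 1 |(x 1 : ℝ) - y 1| else 0) := by
    split_ifs <;> positivity
  positivity

lemma vol_le_bd {n : ℕ} (R P : ℕ) (hRP : 2 * R + 2 ≤ P) (x y : Fin (n + 2) → ℕ)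
    (hx : x ∈ Y935.WR.box (n + 2) P) (hy : y ∈ Y935.WR.box (n + 2) P) :
    volume (V2 R x y) ≤ ENNReal.ofReal (bd R P
      (((n + 2 : ℕ) : ℝ) + 2 * ((n + 2 : ℕ) : ℝ) ^ 2 * R * 3 ^ (n + 1)) x y) := by
  by_cases hxy : x = y
  · subst hxy
    have h1 : volume (V2 R x x) ≤ ENNReal.ofReal ((2 * (R : ℝ)) ^ (n + 2)) := by
      refine (measure_mono Set.inter_subset_left).trans ?_
      rw [volume_pi_pi]
      simp only [Real.volume_Icc, Finset.prod_const, Finset.card_univ, Fintype.card_fin]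
      rw [← ENNReal.ofReal_pow (by
        have : (0 : ℝ) ≤ R := Nat.cast_nonneg _
        linarith)]
      apply le_of_eq
      congr 2
      ring
    refine h1.trans (ENNReal.ofReal_le_ofReal ?_)
    unfold bd
    rw [if_pos rfl]
    have h2 : 0 ≤ 2 ^ (n + 1) * (2 * (R : ℝ)) ^ (n + 1) / (P : ℝ) ^ n *
      (if |∑ i, ((x i : ℝ) ^ (n + 2) - (x i : ℝ) ^ (n + 2))| ≤
        (((n + 2 : ℕ) : ℝ) + 2 * ((n + 2 : ℕ) : ℝ) ^ 2 * R * 3 ^ (n + 1)) * (P : ℝ) ^ (n + 1)
        then 1 / max 1 |(x 1 : ℝ) - x 1| else 0) := by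
      apply mul_nonneg (by positivity)
      split_ifs <;> positivity
    linarith
  · by_cases hne : (V2 R x y).Nonempty
    · obtain ⟨μ, hμ⟩ := hne
      have h1 := near R P hRP x y hx hy μ hμ.1 hμ.2
      refine (vol_pair R P hRP x y hx hy hxy).trans (ENNReal.ofReal_le_ofReal ?_)
      unfold bd
      rw [if_neg hxy, if_pos h1, zero_add]
    · rw [Set.not_nonempty_iff_eq_empty] at hne
      rw [hne]
      simp

lemma sum_bd {n : ℕ} (R P : ℕ) (hP : 1 ≤ P) (C : ℝ) (hC : 0 ≤ C) :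
    ∑ p ∈ Y935.WR.box (n + 2) P ×ˢ Y935.WR.box (n + 2) P, bd R P C p.1 p.2 ≤
      ((2 * (R : ℝ)) ^ (n + 2) + 2 ^ (n + 1) * (2 * (R : ℝ)) ^ (n + 1) * ((2 * C + 1) * 4)) *
        (P : ℝ) ^ (n + 2) * (1 + Real.log P) := by
  have hlog : 0 ≤ Real.log (P : ℝ) := Real.log_natCast_nonneg _
  have hPpos : (0 : ℝ) < P := by exact_mod_cast hP
  rw [Finset.sum_product_right]
  have h1 : ∀ y ∈ Y935.WR.box (n + 2) P, ∑ x ∈ Y935.WR.box (n + 2) P, bd R P C x y ≤
      ((2 * (R : ℝ)) ^ (n + 2) + 2 ^ (n + 1) * (2 * (R : ℝ)) ^ (n + 1) * ((2 * C + 1) * 4)) *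
        (1 + Real.log P) := by
    intro y hy
    unfold bd
    rw [Finset.sum_add_distrib, ← Finset.mul_sum]
    have h2 := sum_x P hP C hC y hy
    have h3 : ∑ x ∈ Y935.WR.box (n + 2) P, (if x = y then (2 * (R : ℝ)) ^ (n + 2) else 0) =
        (2 * (R : ℝ)) ^ (n + 2) := by
      rw [Finset.sum_ite_eq' ]
      rw [if_pos hy]
    rw [h3]
    have h4 : 0 ≤ 2 ^ (n + 1) * (2 * (R : ℝ)) ^ (n + 1) / (P : ℝ) ^ n := by positivity
    have h5 := mul_le_mul_of_nonneg_left h2 h4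
    have h6 : 2 ^ (n + 1) * (2 * (R : ℝ)) ^ (n + 1) / (P : ℝ) ^ n *
        ((2 * C + 1) * ((P : ℝ) ^ n * (4 * (1 + Real.log P)))) =
        2 ^ (n + 1) * (2 * (R : ℝ)) ^ (n + 1) * ((2 * C + 1) * 4) * (1 + Real.log P) := by
      field_simp
    rw [h6] at h5
    have h7 : (2 * (R : ℝ)) ^ (n + 2) ≤ (2 * (R : ℝ)) ^ (n + 2) * (1 + Real.log P) :=
      le_mul_of_one_le_right (by positivity) (by linarith)
    linarith
  refine (Finset.sum_le_sum h1).trans ?_
  rw [Finset.sum_const, nsmul_eq_mul]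
  unfold Y935.WR.box
  rw [Fintype.card_piFinset]
  have : 2 * P - P = P := by omega
  simp only [Nat.card_Ioc, this, Finset.prod_const, Finset.card_univ, Fintype.card_fin]
  push_cast
  apply le_of_eq
  ring

theorem mvs : Pool.Agent.Y935.WR.S_MVS := by
  intro k R hk
  obtain ⟨n, rfl⟩ : ∃ n, k = n + 2 := ⟨k - 2, by omega⟩
  set C4 : ℝ := ((n + 2 : ℕ) : ℝ) + 2 * ((n + 2 : ℕ) : ℝ) ^ 2 * R * 3 ^ (n + 1) with hC4
  have hC4' : 0 ≤ C4 := by positivity
  refine ⟨(2 * (R : ℝ)) ^ (n + 2) + 2 ^ (n + 1) * (2 * (R : ℝ)) ^ (n + 1) * ((2 * C4 + 1) * 4) + 1,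
    by positivity, ?_⟩
  intro α P hα hRP
  have hP : 1 ≤ P := by omega
  have hlog : 0 ≤ Real.log (P : ℝ) := Real.log_natCast_nonneg _
  have hms : ∀ x y : Fin (n + 2) → ℕ,
      MeasurableSet {μ : Fin (n + 2) → ℝ | |G x y μ| < ((n + 2 : ℕ) : ℝ)} := fun x y =>
    (isOpen_lt (G_cont x y).abs continuous_const).measurableSet
  have hV : MeasurableSet (Set.univ.pi (fun _ : Fin (n + 2) => Set.Icc (-(R : ℝ)) R)) :=
    MeasurableSet.univ_pi fun _ => measurableSet_Icc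
  have hpt : ∀ μ : Fin (n + 2) → ℝ,
      (Jc (Y935.WR.box (n + 2) P) (Y935.WR.val α μ) : ENNReal) ≤
      ∑ p ∈ Y935.WR.box (n + 2) P ×ˢ Y935.WR.box (n + 2) P,
        ({μ : Fin (n + 2) → ℝ | |G p.1 p.2 μ| < ((n + 2 : ℕ) : ℝ)}).indicator
          (fun _ => (1 : ENNReal)) μ := by
    intro μ
    unfold Jc
    rw [Finset.card_eq_sum_ones, Finset.sum_filter, Nat.cast_sum]
    refine Finset.sum_le_sum fun p _ => ?_
    split_ifs with h
    · rw [Set.indicator_of_mem, Nat.cast_one]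
      exact abs_G_lt (by omega) hα μ p.1 p.2 h
    · simp
  calc ∫⁻ μ in Set.univ.pi (fun _ : Fin (n + 2) => Set.Icc (-(R : ℝ)) R),
      (Jc (Y935.WR.box (n + 2) P) (Y935.WR.val α μ) : ENNReal)
      ≤ ∫⁻ μ in Set.univ.pi (fun _ : Fin (n + 2) => Set.Icc (-(R : ℝ)) R),
        ∑ p ∈ Y935.WR.box (n + 2) P ×ˢ Y935.WR.box (n + 2) P,
        ({μ : Fin (n + 2) → ℝ | |G p.1 p.2 μ| < ((n + 2 : ℕ) : ℝ)}).indicator
          (fun _ => (1 : ENNReal)) μ := lintegral_mono hpt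
    _ = ∑ p ∈ Y935.WR.box (n + 2) P ×ˢ Y935.WR.box (n + 2) P,
        ∫⁻ μ in Set.univ.pi (fun _ : Fin (n + 2) => Set.Icc (-(R : ℝ)) R),
        ({μ : Fin (n + 2) → ℝ | |G p.1 p.2 μ| < ((n + 2 : ℕ) : ℝ)}).indicator
          (fun _ => (1 : ENNReal)) μ := by
        rw [lintegral_finsetSum]
        intro p _
        exact measurable_const.indicator (hms p.1 p.2)
    _ = ∑ p ∈ Y935.WR.box (n + 2) P ×ˢ Y935.WR.box (n + 2) P, volume (V2 R p.1 p.2) := by
        refine Finset.sum_congr rfl fun p _ => ?_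
        rw [lintegral_indicator (hms p.1 p.2), setLIntegral_one,
          Measure.restrict_apply (hms p.1 p.2)]
        unfold V2
        rw [Set.inter_comm]
    _ ≤ ∑ p ∈ Y935.WR.box (n + 2) P ×ˢ Y935.WR.box (n + 2) P,
        ENNReal.ofReal (bd R P C4 p.1 p.2) := by
        refine Finset.sum_le_sum fun p hp => ?_
        rw [Finset.mem_product] at hp
        exact vol_le_bd R P hRP p.1 p.2 hp.1 hp.2
    _ = ENNReal.ofReal (∑ p ∈ Y935.WR.box (n + 2) P ×ˢ Y935.WR.box (n + 2) P,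
        bd R P C4 p.1 p.2) := by
        rw [ENNReal.ofReal_sum_of_nonneg]
        intro p _
        exact bd_nonneg _ _ _ _ _
    _ ≤ _ := by
        apply ENNReal.ofReal_le_ofReal
        refine (sum_bd R P hP C4 hC4').trans ?_
        have h1 : 0 ≤ (P : ℝ) ^ (n + 2) * (1 + Real.log P) := by positivity
        nlinarith

end

end Pool.Agent.Y496.WR
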